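import Pool.Agent.Lib.MP_b5021c_nt.IfaceB

/-!
# MP_b5021c_nt, board b5, row EVR: values on the circle
-/

namespace Pool.Agent.B5.H36

open scoped LaurentPolynomial
open Polynomial Pool.Agent.B5

section

variable {O : Type} [CommRing O] [Coef O]

theorem evR_CT (z : Circle) (u : O) (n : ℤ) :
    evR z (LaurentPolynomial.C u * LaurentPolynomial.T n) = Coef.emb u * (z : ℂ) ^ n := by
  unfold evR
  rw [LaurentPolynomial.eval₂_C_mul_T]
  simp

theorem evR_single (z : Circle) (n : ℤ) (c : O) :
    evR z (AddMonoidAlgebra.single n c : RO O) = Coef.emb c * (z : ℂ) ^ n := by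
  rw [← evR_CT, ← LaurentPolynomial.single_eq_C_mul_T]

theorem evR_eq (z : Circle) (p : RO O) :
    evR z p = p.coeff.sum fun n c => Coef.emb c * (z : ℂ) ^ n := by
  induction p using AddMonoidAlgebra.induction_linear with
  | zero => simp
  | add f g hf hg =>
    rw [map_add, hf, hg]
    rw [AddMonoidAlgebra.coeff_add, Finsupp.sum_add_index']
    · intro a; simp
    · intro a b1 b2; rw [map_add, add_mul]
  | single n c =>
    rw [evR_single, AddMonoidAlgebra.coeff_single, Finsupp.sum_single_index]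
    rw [map_zero, zero_mul]

theorem rsh_single (n : ℤ) (c : O) :
    rsh (AddMonoidAlgebra.single n c : RO O) = AddMonoidAlgebra.single (-n) (Coef.conj c) := by
  unfold rsh
  rw [RingHom.comp_apply, AddMonoidAlgebra.mapRingHom_single]
  change LaurentPolynomial.invert (AddMonoidAlgebra.single n (Coef.conj c) : RO O) = _
  rw [LaurentPolynomial.single_eq_C_mul_T, map_mul, LaurentPolynomial.invert_C,
    LaurentPolynomial.invert_T, ← LaurentPolynomial.single_eq_C_mul_T]

theorem evR_rsh (z : Circle) (p : RO O) : evR z (rsh p) = (starRingEnd ℂ) (evR z p) := by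
  induction p using AddMonoidAlgebra.induction_linear with
  | zero => simp
  | add f g hf hg => rw [map_add, map_add, hf, hg, map_add, map_add]
  | single n c =>
    rw [rsh_single, evR_single, evR_single, Coef.emb_conj, map_mul, map_zpow₀, zpow_neg]
    congr 1
    rw [← Circle.coe_inv_eq_conj, Circle.coe_inv, inv_zpow]

end

section

variable {O : Type} [CommRing O] [IsDomain O] [Coef O]

theorem norm_emb_unit (u : O) (hu : IsUnit u) : ‖(Coef.emb u : ℂ)‖ = 1 := by
  obtain ⟨v, hv⟩ := hu.exists_right_inv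
  have h1 : (Coef.emb u : ℂ) * Coef.emb v = 1 := by rw [← map_mul, hv, map_one]
  have h2 : ‖(Coef.emb u : ℂ)‖ * ‖(Coef.emb v : ℂ)‖ = 1 := by rw [← norm_mul, h1, norm_one]
  have hu0 : u ≠ 0 := left_ne_zero_of_mul_eq_one hv
  have hv0 : v ≠ 0 := right_ne_zero_of_mul_eq_one hv
  have h3 := Coef.one_le u hu0
  have h4 := Coef.one_le v hv0
  nlinarith

omit [Coef O] in
theorem unit_form (c : RO O) (hc : IsUnit c) :
    ∃ (n : ℤ) (u : O), IsUnit u ∧ c = LaurentPolynomial.C u * LaurentPolynomial.T n := by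
  obtain ⟨d, hd⟩ := hc.exists_right_inv
  obtain ⟨n, p, hp⟩ := LaurentPolynomial.exists_T_pow c
  obtain ⟨m, q, hq⟩ := LaurentPolynomial.exists_T_pow d
  have h1 : Polynomial.toLaurent (p * q) = Polynomial.toLaurent (X ^ (n + m) : O[X]) := by
    rw [map_mul, hp, hq, Polynomial.toLaurent_X_pow]
    calc c * LaurentPolynomial.T n * (d * LaurentPolynomial.T m)
        = (c * d) * (LaurentPolynomial.T n * LaurentPolynomial.T m) := by ring
      _ = _ := by rw [hd, one_mul, ← LaurentPolynomial.T_add]; push_cast; rfl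
  have h2 : p * q = X ^ (n + m) := Polynomial.toLaurent_injective h1
  have h3 : p ∣ X ^ (n + m) := ⟨q, h2.symm⟩
  obtain ⟨i, _, hi⟩ := (dvd_prime_pow Polynomial.prime_X _).1 h3
  obtain ⟨w, hw⟩ := hi.symm
  obtain ⟨u, hu, hu2⟩ := Polynomial.isUnit_iff.1 w.isUnit
  refine ⟨(i : ℤ) - n, u, hu, ?_⟩
  have h4 : c * LaurentPolynomial.T n = LaurentPolynomial.T i * LaurentPolynomial.C u := by
    rw [← hp, ← hw, ← hu2, map_mul, Polynomial.toLaurent_X_pow, Polynomial.toLaurent_C]
  have h5 : c = c * LaurentPolynomial.T n * LaurentPolynomial.T (-n) := by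
    rw [mul_assoc, ← LaurentPolynomial.T_add, add_neg_cancel, LaurentPolynomial.T_zero, mul_one]
  rw [h5, h4, sub_eq_add_neg, LaurentPolynomial.T_add]
  ring

theorem norm_evR_unit (z : Circle) (c : RO O) (hc : IsUnit c) : ‖evR z c‖ = 1 := by
  obtain ⟨n, u, hu, h⟩ := unit_form c hc
  rw [h, evR_CT, norm_mul, norm_emb_unit u hu, norm_zpow, Circle.norm_coe, one_zpow, mul_one]

end

/-- EVR -/
theorem evrs : EvRS := by
  intro O _ _ _ _
  refine ⟨fun z p => (evR_eq z p).symm, ?_, evR_rsh, ?_⟩
  · intro z c hc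
    exact norm_evR_unit z c hc
  · intro p
    have h : (fun z : Circle => evR z p) = fun z : Circle => p.coeff.sum fun n c => Coef.emb c * (z : ℂ) ^ n := by
      funext z
      exact evR_eq z p
    rw [h]
    unfold Finsupp.sum
    refine continuous_finsetSum _ fun i _ => ?_
    refine Continuous.mul continuous_const ?_
    refine Continuous.zpow₀ (by fun_prop) _ fun z => Or.inl (Circle.coe_ne_zero z)

end Pool.Agent.B5.H36
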