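import Pool.Agent.Lib.MP_b5021c_nt.B.H36.H1a

/-!
# MP_b5021c_nt, board b5, row H1C: two different pure rays give case A or case B
-/

namespace Pool.Agent.B5.H36

open scoped LaurentPolynomial
open Pool.Agent.B5

section

variable {O : Type} [CommRing O] {L : Type} [AddCommGroup L]

/-- Coefficients of `(1 - c w^b) G`. -/
theorem coeff_one_sub (b : L) (c : RO O) (G : AO O L) (x : L) :
    ((1 - AddMonoidAlgebra.single b c) * G).coeff x = G.coeff x - c * G.coeff (x - b) := by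
  rw [sub_mul, one_mul, AddMonoidAlgebra.coeff_sub, Finsupp.sub_apply,
    AddMonoidAlgebra.coeff_single_mul_apply]
  congr 3
  abel

theorem supp_one_sub_zero (b : L) (hb : b ≠ 0) (c : RO O) [Nontrivial O] :
    (0 : L) ∈ supp (1 - AddMonoidAlgebra.single b c : AO O L) := by
  change (1 - AddMonoidAlgebra.single b c : AO O L).coeff 0 ≠ 0
  rw [AddMonoidAlgebra.coeff_sub, Finsupp.sub_apply, AddMonoidAlgebra.one_def,
    AddMonoidAlgebra.coeff_single, AddMonoidAlgebra.coeff_single, Finsupp.single_eq_same,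
    Finsupp.single_eq_of_ne (by exact fun h => hb h.symm), sub_zero]
  exact one_ne_zero

theorem supp_one_sub_self (b : L) (hb : b ≠ 0) (c : RO O) (hc : c ≠ 0) :
    b ∈ supp (1 - AddMonoidAlgebra.single b c : AO O L) := by
  change (1 - AddMonoidAlgebra.single b c : AO O L).coeff b ≠ 0
  rw [AddMonoidAlgebra.coeff_sub, Finsupp.sub_apply, AddMonoidAlgebra.one_def,
    AddMonoidAlgebra.coeff_single, AddMonoidAlgebra.coeff_single, Finsupp.single_eq_same,
    Finsupp.single_eq_of_ne (by exact fun h => hb h), zero_sub]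
  exact neg_ne_zero.2 hc

theorem coeff_mon_mul (b : L) (G : AO O L) (x : L) :
    (mon b * G).coeff x = G.coeff (x - b) := by
  unfold mon
  rw [AddMonoidAlgebra.coeff_single_mul_apply, one_mul]
  congr 1
  abel

theorem mon_mul_mon (a b : L) : (mon a : AO O L) * mon b = mon (a + b) := by
  unfold mon
  rw [AddMonoidAlgebra.single_mul_single, one_mul]

theorem mon_zero : (mon 0 : AO O L) = 1 := rfl

end

/-- Bounds for functionals are additive. -/
theorem add_bound (hm : MinS) (O : Type) [CommRing O] [IsDomain O] [IsPrincipalIdealRing O] [Coef O]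
    (L : Type) [AddCommGroup L] [Module.Free ℤ L] [Module.Finite ℤ L] (G H : AO O L)
    (k : L →+ ℤ) (m : ℤ) (hV : ∀ a ∈ supp (G * H), m ≤ k a) (g : L) (hg : g ∈ supp G) (h : L)
    (hh : h ∈ supp H) : m ≤ k g + k h := by
  have h1 : (mon h * G) * (mon (-h) * H) = G * H := by
    have : (mon h : AO O L) * mon (-h) = 1 := by rw [mon_mul_mon, add_neg_cancel, mon_zero]
    calc (mon h * G) * (mon (-h) * H) = (mon h * mon (-h)) * (G * H) := by ring
      _ = _ := by rw [this, one_mul]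
  have h2 : g + h ∈ supp (mon h * G) := by
    change (mon h * G).coeff (g + h) ≠ 0
    rw [coeff_mon_mul, add_sub_cancel_right]
    exact hg
  have h3 : (mon (-h) * H).coeff 0 ≠ 0 := by
    rw [coeff_mon_mul, sub_neg_eq_add, zero_add]
    exact hh
  have h4 : mon h * G ≠ 0 := by
    intro h0
    rw [h0] at h2
    exact h2 rfl
  have h5 := hm O L (mon h * G) (mon (-h) * H) h4 h3 k m (by rw [h1]; exact hV) (g + h) h2
  rwa [map_add] at h5

section

variable {O : Type} [CommRing O] [IsDomain O] [Coef O] {P : Type} [Fintype P] [DecidableEq P]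
  {L : Type} [AddCommGroup L]

omit [IsDomain O] [Coef O] [DecidableEq P] in
/-- Coefficient of the closed element at a proper subset of `S`. -/
theorem clc_proper (phi : L →+ (P → ℤ)) (D : AO O L) (S : L) (i0 : P) (eta : (RO O)ˣ)
    (h : co phi i0 S = 1) (hinj : Function.Injective phi) (hbin : ∀ a ∈ supp D, Bin phi a)
    (hS : Bin phi S) (β : L) (hβ : Bin phi β) (hin : ∀ j, phi S j = 0 → phi β j = 0)
    (h0 : β ≠ 0) (h1 : β ≠ S) :
    (cl (co phi i0) S h eta D).coeff (prj (co phi i0) S h β) =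
      ((eta ^ (co phi i0 β) : (RO O)ˣ) : RO O) * D.coeff β := by
  have hD : ∀ a ∈ supp D, co phi i0 a = 0 ∨ co phi i0 a = 1 := fun a ha => hbin a ha i0
  rw [clc _ _ _ _ _ hD, prj_coe]
  have ne0 : ∃ i, phi β i ≠ 0 := by
    by_contra hcon
    push Not at hcon
    apply h0
    apply hinj
    rw [map_zero]
    funext i
    exact hcon i
  have ne1 : ∃ i, phi β i ≠ phi S i := by
    by_contra hcon
    push Not at hcon
    apply h1
    apply hinj
    funext i
    exact hcon i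
  rcases hβ i0 with hk | hk
  · have hk' : co phi i0 β = 0 := hk
    have hz : D.coeff (β + S) = 0 := by
      by_contra hne
      obtain ⟨i, hi⟩ := ne0
      have e1 := hbin _ hne i
      rw [map_add, Pi.add_apply] at e1
      have e2 : phi S i ≠ 0 := fun h => hi (hin i h)
      rcases hβ i with a1 | a1 <;> rcases hS i with a2 | a2 <;> omega
    rw [hk', zero_smul, sub_zero, hz, mul_zero, add_zero, zpow_zero, Units.val_one, one_mul]
  · have hk' : co phi i0 β = 1 := hk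
    have hz : D.coeff (β - S) = 0 := by
      by_contra hne
      obtain ⟨i, hi⟩ := ne1
      have e1 := hbin _ hne i
      rw [map_sub, Pi.sub_apply] at e1
      have e2 := hin i
      rcases hβ i with a1 | a1 <;> rcases hS i with a2 | a2 <;> omega
    rw [hk', one_smul, hz, zero_add, sub_add_cancel, zpow_one]

omit [IsDomain O] [Coef O] [Fintype P] [DecidableEq P] in
/-- Every exponent of the closed element is the projection of an exponent of `D`. -/
theorem exists_lift (phi : L →+ (P → ℤ)) (D : AO O L) (S : L) (i0 : P) (eta : (RO O)ˣ)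
    (h : co phi i0 S = 1) (hbin : ∀ a ∈ supp D, Bin phi a) (b : Ker (co phi i0))
    (hb : b ∈ supp (cl (co phi i0) S h eta D)) :
    ∃ β ∈ supp D, prj (co phi i0) S h β = b := by
  have hD : ∀ a ∈ supp D, co phi i0 a = 0 ∨ co phi i0 a = 1 := fun a ha => hbin a ha i0
  have h1 : (cl (co phi i0) S h eta D).coeff b ≠ 0 := hb
  rw [clc _ _ _ _ _ hD] at h1
  have hb0 : co phi i0 (b : L) = 0 := b.2
  by_cases h2 : D.coeff (b : L) = 0
  · rw [h2, zero_add] at h1
    refine ⟨(b : L) + S, right_ne_zero_of_mul h1, ?_⟩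
    apply Subtype.ext
    rw [prj_coe, map_add, hb0, h]
    simp
  · refine ⟨(b : L), h2, ?_⟩
    apply Subtype.ext
    rw [prj_coe, hb0]
    simp

omit [IsDomain O] [Coef O] [DecidableEq P] [Fintype P] in
theorem exists_port (phi : L →+ (P → ℤ)) (hinj : Function.Injective phi) (S α : L) (hS : Bin phi S)
    (ha : Bin phi α) (hin : ∀ j, phi S j = 0 → phi α j = 0) (h0 : α ≠ 0) (h1 : α ≠ S) :
    (∃ i, phi S i = 1 ∧ phi α i = 1) ∧ ∃ j, phi S j = 1 ∧ phi α j = 0 := by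
  constructor
  · by_contra hcon
    push Not at hcon
    apply h0
    apply hinj
    rw [map_zero]
    funext i
    change phi α i = 0
    have e1 := hcon i
    have e2 := hin i
    rcases ha i with a1 | a1 <;> rcases hS i with a2 | a2 <;> omega
  · by_contra hcon
    push Not at hcon
    apply h1
    apply hinj
    funext i
    have e1 := hcon i
    have e2 := hin i
    rcases ha i with a1 | a1 <;> rcases hS i with a2 | a2 <;> omega

end

/-- Bounds for functionals: three factors. -/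
theorem add_bound3 (hm : MinS) (O : Type) [CommRing O] [IsDomain O] [IsPrincipalIdealRing O] [Coef O]
    (L : Type) [AddCommGroup L] [Module.Free ℤ L] [Module.Finite ℤ L] (b₁ b₂ : L) (hb1 : b₁ ≠ 0)
    (hb2 : b₂ ≠ 0) (c₁ c₂ : RO O) (hc1 : c₁ ≠ 0) (hc2 : c₂ ≠ 0) (q : AO O L)
    (k : L →+ ℤ) (m : ℤ) (hV : ∀ a ∈ supp ((1 - AddMonoidAlgebra.single b₁ c₁) *
      (1 - AddMonoidAlgebra.single b₂ c₂) * q), m ≤ k a) (g₁ g₂ : L) (hg1 : g₁ = 0 ∨ g₁ = b₁)
    (hg2 : g₂ = 0 ∨ g₂ = b₂) (x : L) (hx : x ∈ supp q) : m ≤ k g₁ + k g₂ + k x := by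
  have s1 : g₁ ∈ supp (1 - AddMonoidAlgebra.single b₁ c₁ : AO O L) := by
    rcases hg1 with rfl | rfl
    · exact supp_one_sub_zero b₁ hb1 c₁
    · exact supp_one_sub_self g₁ hb1 c₁ hc1
  have s2 : g₂ ∈ supp (1 - AddMonoidAlgebra.single b₂ c₂ : AO O L) := by
    rcases hg2 with rfl | rfl
    · exact supp_one_sub_zero b₂ hb2 c₂
    · exact supp_one_sub_self g₂ hb2 c₂ hc2
  rw [mul_assoc] at hV
  have h1 : ∀ a ∈ supp ((1 - AddMonoidAlgebra.single b₂ c₂) * q : AO O L), m - k g₁ ≤ k a := by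
    intro a ha
    have := add_bound hm O L _ _ k m hV g₁ s1 a ha
    linarith
  have h2 := add_bound hm O L _ _ k (m - k g₁) h1 g₂ s2 x hx
  linarith

/-- Two complementary sets. -/
theorem sum_eq {P : Type} {L : Type} [AddCommGroup L] (phi : L →+ (P → ℤ))
    (hinj : Function.Injective phi) (S α₁ α₂ : L)
    (hS : Bin phi S) (hA1 : Bin phi α₁) (hA2 : Bin phi α₂) (hin1 : ∀ j, phi S j = 0 → phi α₁ j = 0)
    (hin2 : ∀ j, phi S j = 0 → phi α₂ j = 0)
    (hd : ∀ i, phi S i = 1 → ¬(phi α₁ i = 1 ∧ phi α₂ i = 1))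
    (hc : ∀ i, phi S i = 1 → ¬(phi α₁ i = 0 ∧ phi α₂ i = 0)) : α₁ + α₂ = S := by
  apply hinj
  funext i
  rw [map_add, Pi.add_apply]
  have e1 := hd i
  have e2 := hc i
  have e3 := hin1 i
  have e4 := hin2 i
  rcases hS i with a3 | a3
  · rw [a3, e3 a3, e4 a3, add_zero]
  · rw [a3]
    rcases hA1 i with a1 | a1 <;> rcases hA2 i with a2 | a2
    · exact absurd ⟨a1, a2⟩ (e2 a3)
    · rw [a1, a2, zero_add]
    · rw [a1, a2, add_zero]
    · exact absurd ⟨a1, a2⟩ (e1 a3)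

set_option maxHeartbeats 1000000 in
/-- H1C -/
theorem h1c (hG : G0S) (hm : MinS) : H1S := by
  intro O _ _ _ _ P L _ _ _ _ _ phi D S i0 eta h b₁ b₂ c₁ c₂ hcc hr1 hr2 hp1 hp2 hne hdiv
  obtain ⟨-, -, hco0, -, -, hpos⟩ := hG O P L phi D S i0 eta h hcc
  have hinj := hcc.dd.inj
  have hbin := hcc.dd.bin
  have hV0 := hcc.v0
  obtain ⟨hSD, hS0, lam, hlamS, hlam⟩ := hcc.ray
  have hS := hbin S hSD
  have hpos0 := hpos lam hlamS hlam
  obtain ⟨α₁, ha1D, ha1⟩ := exists_lift phi D S i0 eta h hbin b₁ hr1.1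
  obtain ⟨α₂, ha2D, ha2⟩ := exists_lift phi D S i0 eta h hbin b₂ hr2.1
  have hA1 := hbin α₁ ha1D
  have hA2 := hbin α₂ ha2D
  have prjS : prj (co phi i0) S h S = 0 := by
    apply Subtype.ext
    rw [prj_coe, h, one_smul, sub_self]
    rfl
  have nz : ∀ (b : Ker (co phi i0)) (α : L), b ≠ 0 → prj (co phi i0) S h α = b → α ≠ 0 ∧ α ≠ S := by
    intro b α hb hα
    constructor
    · rintro rfl
      rw [map_zero] at hα
      exact hb hα.symm
    · rintro rfl
      rw [prjS] at hα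
      exact hb hα.symm
  have inS : ∀ (b : Ker (co phi i0)) (α : L), prj (co phi i0) S h α = b →
      (∀ j ∈ OO phi S, phi (b : L) j = 0) → ∀ j, phi S j = 0 → phi α j = 0 := by
    intro b α hα hb j hj
    have e1 := hb j (by simp [OO, hj])
    rw [← hα, prj_coe, map_sub, map_zsmul, Pi.sub_apply, Pi.smul_apply, hj, smul_zero, sub_zero] at e1
    exact e1
  have hin1 := inS b₁ α₁ ha1 hp1
  have hin2 := inS b₂ α₂ ha2 hp2
  obtain ⟨hn1, hs1⟩ := nz b₁ α₁ hr1.2.1 ha1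
  obtain ⟨hn2, hs2⟩ := nz b₂ α₂ hr2.2.1 ha2
  obtain ⟨⟨i₁, hi₁S, hi₁⟩, ⟨j₁, hj₁S, hj₁⟩⟩ := exists_port phi hinj S α₁ hS hA1 hin1 hn1 hs1
  obtain ⟨⟨i₂, hi₂S, hi₂⟩, ⟨j₂, hj₂S, hj₂⟩⟩ := exists_port phi hinj S α₂ hS hA2 hin2 hn2 hs2
  obtain ⟨q, hq⟩ := hdiv
  have hu1 : ((c₁ : (RO O)ˣ) : RO O) ≠ 0 := c₁.ne_zero
  have hu2 : ((c₂ : (RO O)ˣ) : RO O) ≠ 0 := c₂.ne_zero
  have form : ∀ x : Ker (co phi i0), (cl (co phi i0) S h eta D).coeff x =
      (q.coeff x - c₂ * q.coeff (x - b₂)) -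
        c₁ * (q.coeff (x - b₁) - c₂ * q.coeff (x - b₁ - b₂)) := by
    intro x
    rw [hq, mul_assoc, coeff_one_sub, coeff_one_sub, coeff_one_sub]
  have bound := fun (k : Ker (co phi i0) →+ ℤ) (m : ℤ)
      (hk : ∀ a ∈ supp (cl (co phi i0) S h eta D), m ≤ k a) =>
    add_bound3 hm O (Ker (co phi i0)) b₁ b₂ hr1.2.1 hr2.2.1 (c₁ : RO O) (c₂ : RO O) hu1 hu2 q k m
      (by rw [← hq]; exact hk)
  -- positivity
  have lp1 : 0 < lam.comp (incl (Ker (co phi i0))) b₁ := hpos0 b₁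
    (Finsupp.mem_support_iff.2 hr1.1) hr1.2.1
  have lp2 : 0 < lam.comp (incl (Ker (co phi i0))) b₂ := hpos0 b₂
    (Finsupp.mem_support_iff.2 hr2.1) hr2.2.1
  have lq : ∀ x ∈ supp q, 0 ≤ lam.comp (incl (Ker (co phi i0))) x := by
    intro x hx
    have := bound (lam.comp (incl (Ker (co phi i0)))) 0 (by
      intro a ha
      by_cases h0 : a = 0
      · rw [h0, map_zero]
      · exact (hpos0 a (Finsupp.mem_support_iff.2 ha) h0).le) 0 0 (Or.inl rfl) (Or.inl rfl) x hx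
    simpa using this
  have vneg : ∀ x : Ker (co phi i0), lam.comp (incl (Ker (co phi i0))) x < 0 →
      q.coeff x = 0 ∧ (cl (co phi i0) S h eta D).coeff x = 0 := by
    intro x hx
    constructor
    · by_contra hcon
      have := lq x hcon
      linarith
    · by_contra hcon
      have h0 : x ≠ 0 := by
        rintro rfl
        rw [map_zero] at hx
        exact lt_irrefl _ hx
      have := hpos0 x (Finsupp.mem_support_iff.2 hcon) h0
      linarith
  have n1 := vneg (-b₁) (by rw [map_neg]; linarith)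
  have n2 := vneg (-b₂) (by rw [map_neg]; linarith)
  have n12 := vneg (-(b₁ + b₂)) (by rw [map_neg, map_add]; linarith)
  have hb12 : b₁ + b₂ ≠ 0 := by
    intro h0
    have : lam.comp (incl (Ker (co phi i0))) (b₁ + b₂) = 0 := by rw [h0, map_zero]
    rw [map_add] at this
    linarith
  have hq0 : q.coeff 0 = (cl (co phi i0) S h eta D).coeff 0 := by
    have e1 := form 0
    rw [zero_sub, zero_sub, show -b₁ - b₂ = -(b₁ + b₂) by abel, n1.1, n2.1, n12.1] at e1
    rw [e1]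
    ring
  -- the functionals
  have key : ∀ i j, phi S i = 1 → phi S j = 1 → ∀ g₁ g₂ x : Ker (co phi i0), (g₁ = 0 ∨ g₁ = b₁) →
      (g₂ = 0 ∨ g₂ = b₂) → x ∈ supp q →
      -1 ≤ (phi (g₁ : L) j - phi (g₁ : L) i) + (phi (g₂ : L) j - phi (g₂ : L) i) +
        (phi (x : L) j - phi (x : L) i) := by
    intro i j hi hj g₁ g₂ x hg1 hg2 hx
    refine bound ((co phi j - co phi i).comp (incl (Ker (co phi i0)))) (-1) ?_ g₁ g₂ hg1 hg2 x hx
    intro a ha
    obtain ⟨β, hβ, hβa⟩ := exists_lift phi D S i0 eta h hbin a ha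
    change -1 ≤ phi (a : L) j - phi (a : L) i
    rw [← hβa, prj_coe, map_sub, map_zsmul, Pi.sub_apply, Pi.sub_apply, Pi.smul_apply,
      Pi.smul_apply, hi, hj]
    rcases hbin β hβ i with e1 | e1 <;> rcases hbin β hβ j with e2 | e2 <;> rw [e1, e2] <;> simp
  have eb : ∀ i j, phi S i = 1 → phi S j = 1 → ∀ (b : Ker (co phi i0)) (α : L),
      prj (co phi i0) S h α = b → phi (b : L) j - phi (b : L) i = phi α j - phi α i := by
    intro i j hi hj b α hα
    rw [← hα, prj_coe, map_sub, map_zsmul, Pi.sub_apply, Pi.sub_apply, Pi.smul_apply,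
      Pi.smul_apply, hi, hj]
    ring
  -- a general vanishing criterion
  have van : ∀ i j, phi S i = 1 → phi S j = 1 → ∀ n₁ n₂ : ℤ,
      (n₁ + 1) * (phi α₁ j - phi α₁ i) + n₂ * (phi α₂ j - phi α₂ i) < -1 ∨
      n₁ * (phi α₁ j - phi α₁ i) + (n₂ + 1) * (phi α₂ j - phi α₂ i) < -1 ∨
      n₁ * (phi α₁ j - phi α₁ i) + n₂ * (phi α₂ j - phi α₂ i) < -1 ∨
      (n₁ + 1) * (phi α₁ j - phi α₁ i) + (n₂ + 1) * (phi α₂ j - phi α₂ i) < -1 →
      q.coeff (n₁ • b₁ + n₂ • b₂) = 0 := by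
    intro i j hi hj n₁ n₂ hn
    by_contra hcon
    have x0 : phi ((n₁ • b₁ + n₂ • b₂ : Ker (co phi i0)) : L) j -
        phi ((n₁ • b₁ + n₂ • b₂ : Ker (co phi i0)) : L) i =
        n₁ * (phi α₁ j - phi α₁ i) + n₂ * (phi α₂ j - phi α₂ i) := by
      rw [← eb i j hi hj b₁ α₁ ha1, ← eb i j hi hj b₂ α₂ ha2]
      simp only [Submodule.coe_add, Submodule.coe_smul, map_add, map_zsmul, Pi.add_apply,
        Pi.smul_apply, smul_eq_mul]
      ring
    have z0 : phi ((0 : Ker (co phi i0)) : L) j - phi ((0 : Ker (co phi i0)) : L) i = 0 := by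
      rw [Submodule.coe_zero, map_zero]
      simp
    have k1 := key i j hi hj b₁ 0 _ (Or.inr rfl) (Or.inl rfl) hcon
    have k2 := key i j hi hj 0 b₂ _ (Or.inl rfl) (Or.inr rfl) hcon
    have k3 := key i j hi hj 0 0 _ (Or.inl rfl) (Or.inl rfl) hcon
    have k4 := key i j hi hj b₁ b₂ _ (Or.inr rfl) (Or.inr rfl) hcon
    rw [x0, z0, eb i j hi hj b₁ α₁ ha1] at k1
    rw [x0, z0, eb i j hi hj b₂ α₂ ha2] at k2
    rw [x0, z0] at k3
    rw [x0, eb i j hi hj b₁ α₁ ha1, eb i j hi hj b₂ α₂ ha2] at k4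
    rcases hn with hn | hn | hn | hn <;> linarith
  have q1 : q.coeff b₁ = 0 := by
    have := van i₁ j₁ hi₁S hj₁S 1 0 (Or.inl (by rw [hi₁, hj₁]; norm_num))
    rwa [one_smul, zero_smul, add_zero] at this
  have q2 : q.coeff b₂ = 0 := by
    have := van i₂ j₂ hi₂S hj₂S 0 1 (Or.inr (Or.inl (by rw [hi₂, hj₂]; norm_num)))
    rwa [one_smul, zero_smul, zero_add] at this
  have q0 : q.coeff 0 ≠ 0 := by
    rw [hq0, hco0]
    exact hV0
  have dich : ¬ ((∃ i, phi S i = 1 ∧ phi α₁ i = 1 ∧ phi α₂ i = 1) ∧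
      ∃ j, phi S j = 1 ∧ phi α₁ j = 0 ∧ phi α₂ j = 0) := by
    rintro ⟨⟨i, hiS, hi1, hi2⟩, ⟨j, hjS, hj1, hj2⟩⟩
    apply q0
    have := van i j hiS hjS 0 0 (Or.inr (Or.inr (Or.inr (by rw [hi1, hi2, hj1, hj2]; norm_num))))
    rwa [zero_smul, zero_smul, add_zero] at this
  have hsum : α₁ + α₂ ≠ S := by
    intro h0
    apply hb12
    rw [← ha1, ← ha2, ← map_add, h0, prjS]
  have hfin : ∀ W : Prop, ((∀ i, phi S i = 1 → ¬(phi α₁ i = 1 ∧ phi α₂ i = 1)) → W) →
      ((∀ i, phi S i = 1 → ¬(phi α₁ i = 0 ∧ phi α₂ i = 0)) → W) → W := by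
    intro W w1 w2
    by_cases hc : ∃ i, phi S i = 1 ∧ phi α₁ i = 1 ∧ phi α₂ i = 1
    · apply w2
      intro j hj hj2
      exact dich ⟨hc, j, hj, hj2⟩
    · apply w1
      intro i hi hi2
      exact hc ⟨i, hi, hi2⟩
  have W1 : ∃ i j, phi S i = 1 ∧ phi S j = 1 ∧ phi α₁ i = 1 ∧ phi α₂ i = 0 ∧ phi α₁ j = 0 ∧
      phi α₂ j = 1 := by
    apply hfin
    · intro hd
      refine ⟨i₁, i₂, hi₁S, hi₂S, hi₁, ?_, ?_, hi₂⟩
      · have := hd i₁ hi₁S
        rcases hA2 i₁ with e | e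
        · exact e
        · exact absurd ⟨hi₁, e⟩ this
      · have := hd i₂ hi₂S
        rcases hA1 i₂ with e | e
        · exact e
        · exact absurd ⟨e, hi₂⟩ this
    · intro hd
      refine ⟨j₂, j₁, hj₂S, hj₁S, ?_, hj₂, hj₁, ?_⟩
      · have := hd j₂ hj₂S
        rcases hA1 j₂ with e | e
        · exact absurd ⟨e, hj₂⟩ this
        · exact e
      · have := hd j₁ hj₁S
        rcases hA2 j₁ with e | e
        · exact absurd ⟨hj₁, e⟩ this
        · exact e
  have W2 : ∃ i j, phi S i = 1 ∧ phi S j = 1 ∧ phi α₁ j - phi α₁ i = -1 ∧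
      phi α₂ j - phi α₂ i = 0 := by
    apply hfin
    · intro hd
      have : ∃ j, phi S j = 1 ∧ phi α₁ j = 0 ∧ phi α₂ j = 0 := by
        by_contra hcon
        exact hsum (sum_eq phi hinj S α₁ α₂ hS hA1 hA2 hin1 hin2 hd
          (fun i hi hi2 => hcon ⟨i, hi, hi2⟩))
      obtain ⟨j, hjS, hj1, hj2⟩ := this
      refine ⟨i₁, j, hi₁S, hjS, by rw [hj1, hi₁]; norm_num, ?_⟩
      have := hd i₁ hi₁S
      rcases hA2 i₁ with e | e
      · rw [e, hj2, sub_zero]
      · exact absurd ⟨hi₁, e⟩ this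
    · intro hd
      have : ∃ i, phi S i = 1 ∧ phi α₁ i = 1 ∧ phi α₂ i = 1 := by
        by_contra hcon
        exact hsum (sum_eq phi hinj S α₁ α₂ hS hA1 hA2 hin1 hin2
          (fun i hi hi2 => hcon ⟨i, hi, hi2⟩) hd)
      obtain ⟨i, hiS, hi1, hi2⟩ := this
      refine ⟨i, j₁, hiS, hj₁S, by rw [hj₁, hi1]; norm_num, ?_⟩
      have := hd j₁ hj₁S
      rcases hA2 j₁ with e | e
      · exact absurd ⟨hj₁, e⟩ this
      · rw [e, hi2, sub_self]
  obtain ⟨i, j, hiS, hjS, x1, x2, x3, x4⟩ := W1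
  obtain ⟨i', j', hiS', hjS', y1, y2⟩ := W2
  have q3 : q.coeff (b₁ - b₂) = 0 := by
    have := van i j hiS hjS 1 (-1) (Or.inr (Or.inr (Or.inl (by rw [x1, x2, x3, x4]; norm_num))))
    rwa [one_smul, neg_smul, one_smul, ← sub_eq_add_neg] at this
  have q4 : q.coeff (b₂ - b₁) = 0 := by
    have := van j i hjS hiS (-1) 1 (Or.inr (Or.inr (Or.inl (by rw [x1, x2, x3, x4]; norm_num))))
    rwa [one_smul, neg_smul, one_smul, neg_add_eq_sub] at this
  have q5 : q.coeff (b₁ + b₂) = 0 := by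
    have := van i' j' hiS' hjS' 1 1 (Or.inl (by rw [y1, y2]; norm_num))
    rwa [one_smul, one_smul] at this
  have v1 : (cl (co phi i0) S h eta D).coeff b₁ = -(c₁ * (cl (co phi i0) S h eta D).coeff 0) := by
    rw [form b₁, q1, q3, sub_self, zero_sub b₂, n2.1, hq0]
    ring
  have v2 : (cl (co phi i0) S h eta D).coeff b₂ = -(c₂ * (cl (co phi i0) S h eta D).coeff 0) := by
    rw [form b₂, q2, q4, sub_self, show b₂ - b₁ - b₂ = -b₁ by abel, n1.1, hq0]
    ring
  have v3 : (cl (co phi i0) S h eta D).coeff (b₁ + b₂) =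
      c₁ * c₂ * (cl (co phi i0) S h eta D).coeff 0 := by
    rw [form (b₁ + b₂), q5, show b₁ + b₂ - b₂ = b₁ by abel, show b₁ + b₂ - b₁ = b₂ by abel, q1, q2,
      sub_self, hq0]
    ring
  -- back to `D`
  have back : ∀ β : L, Bin phi β → (∀ j, phi S j = 0 → phi β j = 0) → ∀ x : Ker (co phi i0),
      prj (co phi i0) S h β = x → x ≠ 0 →
      D.coeff β = ((eta ^ (-(co phi i0 β)) : (RO O)ˣ) : RO O) *
        (cl (co phi i0) S h eta D).coeff x := by
    intro β h1 h2 x hx hx0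
    obtain ⟨z1, z2⟩ := nz x β hx0 hx
    rw [← hx, clc_proper phi D S i0 eta h hinj hbin hS β h1 h2 z1 z2, ← mul_assoc, ← Units.val_mul,
      ← zpow_add, neg_add_cancel, zpow_zero, Units.val_one, one_mul]
  rw [hco0] at v1 v2 v3
  apply hfin
  · intro hd
    left
    have hb1 : prj (co phi i0) S h (S - α₁) = -b₁ := by rw [map_sub, prjS, ha1, zero_sub]
    have hb2 : prj (co phi i0) S h (S - α₂) = -b₂ := by rw [map_sub, prjS, ha2, zero_sub]
    have hb3 : prj (co phi i0) S h (α₁ + α₂) = b₁ + b₂ := by rw [map_add, ha1, ha2]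
    have hb4 : prj (co phi i0) S h (S - α₁ - α₂) = -(b₁ + b₂) := by
      rw [map_sub, map_sub, prjS, ha1, ha2]; abel
    have B1 : Bin phi (S - α₁) := by
      intro i
      rw [map_sub, Pi.sub_apply]
      have e3 := hin1 i
      rcases hS i with a3 | a3
      · left; rw [a3, e3 a3, sub_zero]
      · rcases hA1 i with a1 | a1
        · right; rw [a3, a1, sub_zero]
        · left; rw [a3, a1, sub_self]
    have B2 : Bin phi (S - α₂) := by
      intro i
      rw [map_sub, Pi.sub_apply]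
      have e3 := hin2 i
      rcases hS i with a3 | a3
      · left; rw [a3, e3 a3, sub_zero]
      · rcases hA2 i with a1 | a1
        · right; rw [a3, a1, sub_zero]
        · left; rw [a3, a1, sub_self]
    have hle : ∀ i, (phi S i = 0 ∧ phi α₁ i = 0 ∧ phi α₂ i = 0) ∨
        (phi S i = 1 ∧ phi α₁ i = 0 ∧ phi α₂ i = 0) ∨ (phi S i = 1 ∧ phi α₁ i = 1 ∧ phi α₂ i = 0) ∨
        (phi S i = 1 ∧ phi α₁ i = 0 ∧ phi α₂ i = 1) := by
      intro i
      have e1 := hd i
      rcases hS i with a3 | a3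
      · exact Or.inl ⟨a3, hin1 i a3, hin2 i a3⟩
      · rcases hA1 i with a1 | a1 <;> rcases hA2 i with a2 | a2
        · exact Or.inr (Or.inl ⟨a3, a1, a2⟩)
        · exact Or.inr (Or.inr (Or.inr ⟨a3, a1, a2⟩))
        · exact Or.inr (Or.inr (Or.inl ⟨a3, a1, a2⟩))
        · exact absurd ⟨a1, a2⟩ (e1 a3)
    have B3 : Bin phi (α₁ + α₂) := by
      intro i
      rw [map_add, Pi.add_apply]
      rcases hle i with ⟨a, b, c⟩ | ⟨a, b, c⟩ | ⟨a, b, c⟩ | ⟨a, b, c⟩ <;> rw [b, c] <;> norm_num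
    have B4 : Bin phi (S - α₁ - α₂) := by
      intro i
      rw [map_sub, map_sub, Pi.sub_apply, Pi.sub_apply]
      rcases hle i with ⟨a, b, c⟩ | ⟨a, b, c⟩ | ⟨a, b, c⟩ | ⟨a, b, c⟩ <;> rw [a, b, c] <;> norm_num
    have I1 : ∀ j, phi S j = 0 → phi (S - α₁) j = 0 := by
      intro i hi
      rw [map_sub, Pi.sub_apply, hi, hin1 i hi, sub_zero]
    have I2 : ∀ j, phi S j = 0 → phi (S - α₂) j = 0 := by
      intro i hi
      rw [map_sub, Pi.sub_apply, hi, hin2 i hi, sub_zero]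
    have I3 : ∀ j, phi S j = 0 → phi (α₁ + α₂) j = 0 := by
      intro i hi
      rw [map_add, Pi.add_apply, hin1 i hi, hin2 i hi, add_zero]
    have I4 : ∀ j, phi S j = 0 → phi (S - α₁ - α₂) j = 0 := by
      intro i hi
      rw [map_sub, map_sub, Pi.sub_apply, Pi.sub_apply, hi, hin1 i hi, hin2 i hi]
      norm_num
    refine ⟨α₁, α₂, c₁ * eta ^ (-(co phi i0 α₁)), c₂ * eta ^ (-(co phi i0 α₂)), hA1, hA2, hn1, hn2,
      hsum, B4, ?_, ?_, ?_, ?_, ?_, ?_⟩
    · rw [back α₁ hA1 hin1 b₁ ha1 hr1.2.1, v1, Units.val_mul]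
      ring
    · rw [back α₂ hA2 hin2 b₂ ha2 hr2.2.1, v2, Units.val_mul]
      ring
    · rw [back (α₁ + α₂) B3 I3 (b₁ + b₂) hb3 hb12, v3, map_add, neg_add, zpow_add]
      simp only [Units.val_mul]
      ring
    · rw [back (S - α₁ - α₂) B4 I4 _ hb4 (neg_ne_zero.2 hb12), n12.2, mul_zero]
    · rw [back (S - α₁) B1 I1 _ hb1 (neg_ne_zero.2 hr1.2.1), n1.2, mul_zero]
    · rw [back (S - α₂) B2 I2 _ hb2 (neg_ne_zero.2 hr2.2.1), n2.2, mul_zero]
  · intro hd
    right
    have hb1 : prj (co phi i0) S h (S - α₁) = -b₁ := by rw [map_sub, prjS, ha1, zero_sub]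
    have hb2 : prj (co phi i0) S h (S - α₂) = -b₂ := by rw [map_sub, prjS, ha2, zero_sub]
    have hb3 : prj (co phi i0) S h (S - α₁ + (S - α₂)) = -(b₁ + b₂) := by
      rw [map_add, hb1, hb2]; abel
    have hb4 : prj (co phi i0) S h (S - (S - α₁) - (S - α₂)) = b₁ + b₂ := by
      rw [map_sub, map_sub, hb1, hb2, prjS]; abel
    have B1 : Bin phi (S - α₁) := by
      intro i
      rw [map_sub, Pi.sub_apply]
      have e3 := hin1 i
      rcases hS i with a3 | a3
      · left; rw [a3, e3 a3, sub_zero]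
      · rcases hA1 i with a1 | a1
        · right; rw [a3, a1, sub_zero]
        · left; rw [a3, a1, sub_self]
    have B2 : Bin phi (S - α₂) := by
      intro i
      rw [map_sub, Pi.sub_apply]
      have e3 := hin2 i
      rcases hS i with a3 | a3
      · left; rw [a3, e3 a3, sub_zero]
      · rcases hA2 i with a1 | a1
        · right; rw [a3, a1, sub_zero]
        · left; rw [a3, a1, sub_self]
    have hle : ∀ i, (phi S i = 0 ∧ phi α₁ i = 0 ∧ phi α₂ i = 0) ∨
        (phi S i = 1 ∧ phi α₁ i = 1 ∧ phi α₂ i = 1) ∨ (phi S i = 1 ∧ phi α₁ i = 1 ∧ phi α₂ i = 0) ∨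
        (phi S i = 1 ∧ phi α₁ i = 0 ∧ phi α₂ i = 1) := by
      intro i
      have e1 := hd i
      rcases hS i with a3 | a3
      · exact Or.inl ⟨a3, hin1 i a3, hin2 i a3⟩
      · rcases hA1 i with a1 | a1 <;> rcases hA2 i with a2 | a2
        · exact absurd ⟨a1, a2⟩ (e1 a3)
        · exact Or.inr (Or.inr (Or.inr ⟨a3, a1, a2⟩))
        · exact Or.inr (Or.inr (Or.inl ⟨a3, a1, a2⟩))
        · exact Or.inr (Or.inl ⟨a3, a1, a2⟩)
    have B3 : Bin phi (S - α₁ + (S - α₂)) := by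
      intro i
      rw [map_add, map_sub, map_sub, Pi.add_apply, Pi.sub_apply, Pi.sub_apply]
      rcases hle i with ⟨a, b, c⟩ | ⟨a, b, c⟩ | ⟨a, b, c⟩ | ⟨a, b, c⟩ <;> rw [a, b, c] <;> norm_num
    have B4 : Bin phi (S - (S - α₁) - (S - α₂)) := by
      intro i
      rw [map_sub, map_sub, map_sub, map_sub, Pi.sub_apply, Pi.sub_apply, Pi.sub_apply,
        Pi.sub_apply]
      rcases hle i with ⟨a, b, c⟩ | ⟨a, b, c⟩ | ⟨a, b, c⟩ | ⟨a, b, c⟩ <;> rw [a, b, c] <;> norm_num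
    have I1 : ∀ j, phi S j = 0 → phi (S - α₁) j = 0 := by
      intro i hi
      rw [map_sub, Pi.sub_apply, hi, hin1 i hi, sub_zero]
    have I2 : ∀ j, phi S j = 0 → phi (S - α₂) j = 0 := by
      intro i hi
      rw [map_sub, Pi.sub_apply, hi, hin2 i hi, sub_zero]
    have I3 : ∀ j, phi S j = 0 → phi (S - α₁ + (S - α₂)) j = 0 := by
      intro i hi
      rw [map_add, Pi.add_apply, I1 i hi, I2 i hi, add_zero]
    have I4 : ∀ j, phi S j = 0 → phi (S - (S - α₁) - (S - α₂)) j = 0 := by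
      intro i hi
      rw [map_sub, map_sub, Pi.sub_apply, Pi.sub_apply, hi, I1 i hi, I2 i hi]
      norm_num
    have z1 : S - α₁ ≠ 0 := fun h0 => hs1 (sub_eq_zero.1 h0).symm
    have z2 : S - α₂ ≠ 0 := fun h0 => hs2 (sub_eq_zero.1 h0).symm
    have z3 : S - α₁ + (S - α₂) ≠ S := by
      intro h0
      apply hsum
      have : α₁ + α₂ = S + S - (S - α₁ + (S - α₂)) := by abel
      rw [this, h0, add_sub_cancel_right]
    refine ⟨S - α₁, S - α₂, c₁ * eta ^ (-(co phi i0 α₁)), c₂ * eta ^ (-(co phi i0 α₂)), B1, B2, z1,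
      z2, z3, B4, ?_, ?_, ?_, ?_, ?_, ?_⟩
    · rw [sub_sub_cancel, back α₁ hA1 hin1 b₁ ha1 hr1.2.1, v1, Units.val_mul]
      ring
    · rw [sub_sub_cancel, back α₂ hA2 hin2 b₂ ha2 hr2.2.1, v2, Units.val_mul]
      ring
    · have e1 : eta ^ (-(co phi i0 (S - (S - α₁) - (S - α₂)))) =
          eta ^ (-(co phi i0 α₁)) * eta ^ (-(co phi i0 α₂)) * eta := by
        rw [map_sub, map_sub, map_sub, map_sub, h, ← zpow_add, ← zpow_add_one]
        congr 1
        ring
      rw [back _ B4 I4 (b₁ + b₂) hb4 hb12, v3, e1]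
      simp only [Units.val_mul]
      ring
    · rw [back (S - α₁) B1 I1 _ hb1 (neg_ne_zero.2 hr1.2.1), n1.2, mul_zero]
    · rw [back (S - α₂) B2 I2 _ hb2 (neg_ne_zero.2 hr2.2.1), n2.2, mul_zero]
    · rw [back _ B3 I3 _ hb3 (neg_ne_zero.2 hb12), n12.2, mul_zero]

end Pool.Agent.B5.H36
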