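import Pool.Agent.Lib.MP_b5021c_nt.IfaceS2
import Pool.Agent.Lib.MP_b5021c_nt.B.H82.Jv2

/-!
# Board b5, row T_JP2: the induction step in class `P` (sharp theorem)
-/

namespace Pool.Agent.B5.H36

open Pool.Agent.B5
open Pool.Agent.MP_b5021c_nt (Eis)
open Pool.Agent.B5.H82 (bVS_mono one_le_bVS exists_pivot adj_ne)

/-- A product of numbers greater than one which is at most one is empty. -/
theorem jp2_empty (m : ℕ) (N' : Fin m → ℝ) (h : ∀ i, 1 < N' i) (h2 : ∏ i, N' i ≤ 1) :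
    m = 0 := by
  rcases Nat.eq_zero_or_pos m with h0 | h0
  · exact h0
  · exfalso
    obtain ⟨k, rfl⟩ : ∃ k, m = k + 1 := ⟨m - 1, by omega⟩
    rw [Fin.prod_univ_succ] at h2
    have h3 : 1 ≤ ∏ i : Fin k, N' i.succ := by
      apply Finset.prod_induction _ (fun x : ℝ => 1 ≤ x)
      · intro a b ha hb
        nlinarith
      · exact le_rfl
      · intro i _
        exact (h _).le
    have h4 := h 0
    nlinarith

theorem one_le_bPS {x : ℝ} (hx : 1 < x) : 1 ≤ bPS x := by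
  unfold bPS
  have h := Real.log_nonneg hx.le
  linarith

theorem jp2 (hE2 : E2S) (hNVE : NVES) (hFL : Fl2S) (hLSP : LspS) (hCLL : CllS) (hCLO : CLOS)
    (hMV : MVS) (hNP1 : Np1S) (hNP2 : Np2S) : Jp2S := by
  intro P L _ _ _ _ _ phi D θ hθ hD hP hthree hBV hBP
  have htwo : 2 ≤ Module.finrank ℤ L := by omega
  obtain ⟨hz, -, -, -, -, hray⟩ := hE2 Eis P L phi D hD htwo
  have hMQ : M (D.coeff 0) = θ := ((hMV Eis).2 θ _ hP).2
  obtain ⟨hn1, hn2, hn3, hn4⟩ := hNP1 θ hθ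
  have h8 : 8 / θ ≤ 8 / 100 := div_le_div_of_nonneg_left (by norm_num) (by norm_num) hθ
  -- the loads
  have hex : ∀ S : L, ∃ e : (RO Eis)ˣ, Ray D S →
      ((∃ e₂ : (RO Eis)ˣ, Adj e e₂ ∧ 1 / θ ≤ ‖mn ((e : RO Eis) * D.coeff S) (D.coeff 0)‖ ∧
        ‖mn ((e : RO Eis) * D.coeff S) (D.coeff 0)‖ ≤ 1 / 4 ∧
        ∀ e' : (RO Eis)ˣ, (e' = e ∨ e' = e₂) →
          ClassV 1 (D.coeff 0 + (e' : RO Eis) * D.coeff S) ∨
          ∃ θ' : ℝ, θ' ≤ θ - 1 / 2 + 8 / θ ∧
            ClassP θ' (D.coeff 0 + (e' : RO Eis) * D.coeff S)) ∨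
      (ClassV 1 (D.coeff 0 + (e : RO Eis) * D.coeff S) ∨
        (∃ θ' : ℝ, θ' ≤ 4 / 5 * θ + 7 ∧ ClassP θ' (D.coeff 0 + (e : RO Eis) * D.coeff S)) ∨
        ∃ N' : ℝ, N' ≤ θ + 1 ∧ ClassV N' (D.coeff 0 + (e : RO Eis) * D.coeff S))) := by
    intro S
    by_cases hS : Ray D S
    · rcases hLSP θ (D.coeff 0) (D.coeff S) hθ hP hS.1 hz (hray S hS).1 (hray S hS).2 with
        ⟨e₁, e₂, h12, h1, h2, h3⟩ | ⟨e₁, h⟩
      · exact ⟨e₁, fun _ => Or.inl ⟨e₂, h12, h1, h2, h3⟩⟩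
      · exact ⟨e₁, fun _ => Or.inr h⟩
    · exact ⟨1, fun h => absurd h hS⟩
  choose eta heta using hex
  have hneV : ∀ (N : ℝ) (V : RO Eis), ClassV N V → V ≠ 0 := fun N V h => ((hMV Eis).1 N _ h).1
  have hneP : ∀ (t : ℝ) (V : RO Eis), ClassP t V → V ≠ 0 := fun t V h => ((hMV Eis).2 t _ h).1
  have hne : ∀ S, Ray D S → D.coeff 0 + (eta S : RO Eis) * D.coeff S ≠ 0 := by
    intro S hS
    rcases heta S hS with ⟨e₂, -, -, -, h⟩ | h | ⟨θ', -, h⟩ | ⟨N', -, h⟩
    · rcases h (eta S) (Or.inl rfl) with h | ⟨θ', -, h⟩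
      · exact hneV _ _ h
      · exact hneP _ _ h
    · exact hneV _ _ h
    · exact hneP _ _ h
    · exact hneV _ _ h
  obtain ⟨S, g, hRS, hdim, -, hgs, hother⟩ := hFL Eis P L phi D eta hD htwo hne
  obtain ⟨i0, hi0⟩ := exists_pivot hD.inj hRS.2.1 (hD.bin _ hRS.1)
  have hd : (Module.finrank ℤ L : ℝ) =
      rk (supp (cl (co phi i0) S hi0 (eta S) D)) + 1 + g := by
    exact_mod_cast hdim i0 hi0
  have hcc : CC phi D S i0 (eta S) := ⟨hD, htwo, hRS, hi0, hne S hRS⟩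
  rcases heta S hRS with ⟨e₂, hadj, hr1, hr2, hlo⟩ | hV | ⟨θ', hθ', hV⟩ | ⟨N₁, hN₁, hV⟩
  · -- light
    have hne₂ : D.coeff 0 + (e₂ : RO Eis) * D.coeff S ≠ 0 := by
      rcases hlo e₂ (Or.inr rfl) with h | ⟨θ', -, h⟩
      · exact hneV _ _ h
      · exact hneP _ _ h
    have hfull : Module.finrank ℤ L = rk (supp (cl (co phi i0) S hi0 (eta S) D)) + 1 ∨
        Module.finrank ℤ L = rk (supp (cl (co phi i0) S hi0 e₂ D)) + 1 := by
      rcases Nat.eq_zero_or_pos g with hg | hg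
      · left
        have h7 := hdim i0 hi0
        rw [hg] at h7
        simpa using h7
      · right
        exact hother hg e₂ (fun h => adj_ne hadj h.symm) i0 hi0
    obtain ⟨e, he, hcV, hcP⟩ := hCLL Eis P L phi D S i0 (eta S) e₂ hi0 hD hthree hRS hadj
      (hne S hRS) hne₂ hr2 hfull
    rcases hlo e he with hV | ⟨θ', hθ', hV⟩
    · rcases hcV 1 hV bVS bVS_mono one_le_bVS (fun x _ => hBV x) with
        ⟨h1, -⟩ | ⟨h1, -, -⟩ | ⟨m, N'', N₀, l, h1, ⟨Q₀, hQ₀⟩, h2, -, h5, h6⟩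
      · exact absurd h1 (lt_irrefl _)
      · exact absurd h1 (lt_irrefl _)
      · have hN₀1 : 1 ≤ N₀ := hQ₀.1
        have hp0 : 0 ≤ ∏ i, N'' i :=
          Finset.prod_nonneg fun i _ => le_trans zero_le_one (h1 i).1.le
        have hm : m = 0 := jp2_empty m N'' (fun i => (h1 i).1) (by rw [← h2]; nlinarith)
        subst hm
        simp only [Finset.univ_eq_empty, Finset.prod_empty, mul_one, Finset.sum_empty,
          add_zero] at h5 h6
        rw [hMQ] at h5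
        have := hn4 l 0 h5 (Or.inl (by norm_num))
        push_cast at this
        linarith
    · have h1 : 1 < θ' := hV.1
      have h2 : θ' ≤ θ - 1 / 4 := by linarith
      rcases hcP θ' hV (bPS θ') (one_le_bPS h1) (hBP θ' h2) with h | ⟨h3, h⟩ | ⟨l, h | h⟩
      · have := hn1 θ' h1 hθ'
        linarith
      · rw [hMQ] at h3
        have := hn2 θ' _ h1 hr1 h3
        linarith
      · rw [hMQ] at h
        have := hn4 l 0 h.1 (Or.inl (by norm_num))
        push_cast at this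
        linarith [h.2]
      · rw [hMQ] at h
        obtain ⟨h4, h5, h6⟩ := h
        have h7 : θ' ≤ 4 / 5 * θ + 7 := by
          by_contra hcon
          push Not at hcon
          nlinarith
        have := hn3 θ' l 0 h1 h7 h5 (Or.inl (by norm_num))
        push_cast at this
        linarith
  · -- one load, class `V(1)`
    obtain ⟨m, N'', l, h1, h2, h3, h4⟩ := (hCLO Eis P L phi D S i0 (eta S) hi0 hcc).1 1 hV bVS
      bVS_mono one_le_bVS (fun x _ => hBV x)
    have hm : m = 0 := jp2_empty m N'' (fun i => (h1 i).1) h2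
    subst hm
    simp only [Finset.univ_eq_empty, Finset.prod_empty, mul_one, Finset.sum_empty,
      add_zero] at h3 h4
    rw [hMQ] at h3
    have hg' : g ≤ 4 ∨ Real.sqrt 3 ^ (g + 1) ≤ θ + 1 := by
      rcases hgs with h | h
      · exact Or.inl h
      · right
        rw [((hMV Eis).1 1 _ hV).2] at h
        linarith
    have := hn4 l g h3 hg'
    linarith
  · -- one load, class `P(θ')`
    have h1 : 1 < θ' := hV.1
    have h2 : θ' ≤ θ - 1 / 4 := by linarith
    rcases hgs' : hgs with h | h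
    all_goals
      obtain ⟨l, h3 | h3⟩ := (hCLO Eis P L phi D S i0 (eta S) hi0 hcc).2 θ' hV (bPS θ')
        (one_le_bPS h1) (hBP θ' h2)
    · rw [hMQ] at h3
      have := hn4 l g h3.1 (Or.inl h)
      linarith [h3.2]
    · rw [hMQ] at h3
      have := hn3 θ' l g h1 hθ' h3.1 (Or.inl h)
      linarith [h3.2]
    · rw [hMQ] at h3
      rw [((hMV Eis).2 θ' _ hV).2] at h
      have := hn4 l g h3.1 (Or.inr (by linarith))
      linarith [h3.2]
    · rw [hMQ] at h3
      rw [((hMV Eis).2 θ' _ hV).2] at h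
      have := hn3 θ' l g h1 hθ' h3.1 (Or.inr h)
      linarith [h3.2]
  · -- one load, class `V(N')`
    obtain ⟨m, N'', l, h1, h2, h3, h4⟩ := (hCLO Eis P L phi D S i0 (eta S) hi0 hcc).1 N₁ hV bVS
      bVS_mono one_le_bVS (fun x _ => hBV x)
    rw [hMQ] at h3
    have hi3 : ∀ i, Real.sqrt 3 ≤ N'' i := by
      intro i
      obtain ⟨hi1, Q', hQ'⟩ := h1 i
      rcases hNVE _ _ hQ' with h | h
      · linarith
      · exact h
    have hg' : g ≤ 4 ∨ Real.sqrt 3 ^ (g + 1) ≤ θ + 1 := by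
      rcases hgs with h | h
      · exact Or.inl h
      · right
        rw [((hMV Eis).1 N₁ _ hV).2] at h
        linarith
    have := hNP2 θ m N'' l g hθ hi3 (le_trans h2 hN₁) h3 hg'
    linarith

end Pool.Agent.B5.H36
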