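import Pool.Agent.Lib.MP_b5021c_nt.IfaceS4
import Pool.Agent.Lib.MP_b5021c_nt.H67.Pun2
import Pool.Agent.Lib.MP_b5021c_nt.B.H82.Jv3
import Pool.Agent.Lib.MP_b5021c_nt.B.H36.Jp2

/-!
# Board b5, row U_JP3: the induction step in class `P` (final form)
-/

namespace Pool.Agent.B5.H36

open Pool.Agent.B5
open Pool.Agent.B5.H67 (PunS2)
open Pool.Agent.MP_b5021c_nt (Eis)
open Pool.Agent.B5.H82 (exists_pivot adj_ne bV3_mono one_le_bV3 bV3_le)

theorem one_le_bP3 {x : ℝ} (hx : 1 < x) : 1 ≤ bP3 x := by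
  unfold bP3
  exact le_min (by linarith) (by linarith)

theorem bP3_le (x : ℝ) : bP3 x ≤ 2 * x + 480000 := min_le_right _ _

/-- The two loads of a cross pair are different. -/
theorem cross_ne {O : Type} [CommRing O] [IsDomain O] [Coef O] {Q F : RO O} {e₁ e₂ : (RO O)ˣ}
    (h : Cross Q F e₁ e₂) : e₂ ≠ e₁ := by
  rintro rfl
  obtain ⟨-, -, w, k, hk, h1⟩ := h
  have h4 : LaurentPolynomial.C w * LaurentPolynomial.T k * (e₂ : RO O) = 1 * (e₂ : RO O) := by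
    rw [one_mul, ← h1]
  have h5 : LaurentPolynomial.C w * LaurentPolynomial.T k = (1 : RO O) :=
    e₂.isUnit.mul_right_cancel h4
  have h8 := congrArg (fun p : RO O => p.coeff 0) h5
  rw [← LaurentPolynomial.single_eq_C_mul_T] at h8
  have h9 : ((1 : RO O)).coeff 0 = 1 := by
    have h10 : (1 : RO O) = LaurentPolynomial.C 1 := (map_one _).symm
    rw [h10]
    simp only [LaurentPolynomial.C_apply, if_true]
  rw [h9] at h8
  have h11 : (Finsupp.single k w : ℤ →₀ O) 0 = 0 := Finsupp.single_eq_of_ne (fun h => hk h.symm)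
  have h12 : (0 : O) = 1 := by
    rw [← h8]
    exact h11.symm
  exact zero_ne_one h12

theorem jp3 (hE2 : E2S) (hNVE : NVES) (hFL : Fl2S) (hLP3 : Lp3S) (hCLX : ClxS) (hCL4 : Cl4S)
    (hMV : MVS) (hPUN : PunS2) (hADJ : AdjSyS) (hEvR : EvRS) (hNP3 : Np3S) (hNQ3 : Nq3S) :
    Jp3S := by
  intro P L _ _ _ _ _ phi D θ hθ hD hP hthree hBV hBP
  have htwo : 2 ≤ Module.finrank ℤ L := by omega
  obtain ⟨hz, -, -, -, -, hray⟩ := hE2 Eis P L phi D hD htwo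
  have hMQ : M (D.coeff 0) = θ := ((hMV Eis).2 θ _ hP).2
  have hθpos : (0 : ℝ) < θ := by linarith
  obtain ⟨hq1, hq2, hq3⟩ := hNQ3
  have hneV : ∀ (N : ℝ) (V : RO Eis), ClassV N V → V ≠ 0 := fun N V h => ((hMV Eis).1 N _ h).1
  have hneP : ∀ (t : ℝ) (V : RO Eis), ClassP t V → V ≠ 0 := fun t V h => ((hMV Eis).2 t _ h).1
  have hneT : ∀ (x : ℝ) (F : RO Eis) (e : (RO Eis)ˣ), ToP x (D.coeff 0) F e →
      D.coeff 0 + (e : RO Eis) * F ≠ 0 := by
    rintro x F e (h | ⟨θ', -, h⟩)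
    · exact hneV _ _ h
    · exact hneP _ _ h
  -- the loads
  have hex : ∀ S : L, ∃ e : (RO Eis)ˣ, Ray D S →
      ((∃ e₂ : (RO Eis)ˣ, Adj e e₂ ∧ 1 / θ ≤ ‖mn ((e : RO Eis) * D.coeff S) (D.coeff 0)‖ ∧
        ‖mn ((e : RO Eis) * D.coeff S) (D.coeff 0)‖ ≤ 1 / 4 ∧
        ToP (θ - 1 / 2) (D.coeff 0) (D.coeff S) e ∧ ToP (θ - 1 / 2) (D.coeff 0) (D.coeff S) e₂) ∨
      (∃ e₂ : (RO Eis)ˣ, Cross (D.coeff 0) (D.coeff S) e e₂ ∧
        (∃ N' : ℝ, N' ≤ θ + 21 ∧ ClassV N' (D.coeff 0 + (e : RO Eis) * D.coeff S)) ∧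
        ToP (θ - 1 / 2) (D.coeff 0) (D.coeff S) e₂ ∧
        (PwI (D.coeff 0) (D.coeff S) e₂ →
          1 / θ ≤ ‖mn ((e₂ : RO Eis) * D.coeff S) (D.coeff 0)‖)) ∨
      (θ / 11 < M (D.coeff S) ∧ ToP (23 / 25 * θ + 7) (D.coeff 0) (D.coeff S) e) ∨
      (ToP (6 / 10 * θ + 21) (D.coeff 0) (D.coeff S) e ∨
        ∃ N' : ℝ, N' ≤ 72 / 100 * θ + 1 ∧
          ClassV N' (D.coeff 0 + (e : RO Eis) * D.coeff S))) := by
    intro S
    by_cases hS : Ray D S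
    · rcases hLP3 θ (D.coeff 0) (D.coeff S) hθ hP hS.1 hz (hray S hS).1 (hray S hS).2 with
        ⟨e₁, e₂, h⟩ | ⟨e₁, e₂, h⟩ | ⟨h0, e₁, h⟩ | ⟨e₁, h⟩
      · exact ⟨e₁, fun _ => Or.inl ⟨e₂, h⟩⟩
      · exact ⟨e₁, fun _ => Or.inr (Or.inl ⟨e₂, h⟩)⟩
      · exact ⟨e₁, fun _ => Or.inr (Or.inr (Or.inl ⟨h0, h⟩))⟩
      · exact ⟨e₁, fun _ => Or.inr (Or.inr (Or.inr h))⟩
    · exact ⟨1, fun h => absurd h hS⟩
  choose eta heta using hex
  have hne : ∀ S, Ray D S → D.coeff 0 + (eta S : RO Eis) * D.coeff S ≠ 0 := by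
    intro S hS
    rcases heta S hS with ⟨e₂, -, -, -, h, -⟩ | ⟨e₂, -, ⟨N', -, h⟩, -⟩ | ⟨-, h⟩ | h | ⟨N', -, h⟩
    · exact hneT _ _ _ h
    · exact hneV _ _ h
    · exact hneT _ _ _ h
    · exact hneT _ _ _ h
    · exact hneV _ _ h
  obtain ⟨S, g, hRS, hdim, hM, hgs, hother⟩ := hFL Eis P L phi D eta hD htwo hne
  obtain ⟨i0, hi0⟩ := exists_pivot hD.inj hRS.2.1 (hD.bin _ hRS.1)
  have hd : (Module.finrank ℤ L : ℝ) =
      rk (supp (cl (co phi i0) S hi0 (eta S) D)) + 1 + g := by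
    exact_mod_cast hdim i0 hi0
  have hcc : CC phi D S i0 (eta S) := ⟨hD, htwo, hRS, hi0, hne S hRS⟩
  have hfull : ∀ e₂ : (RO Eis)ˣ, e₂ ≠ eta S →
      Module.finrank ℤ L = rk (supp (cl (co phi i0) S hi0 (eta S) D)) + 1 ∨
        Module.finrank ℤ L = rk (supp (cl (co phi i0) S hi0 e₂ D)) + 1 := by
    intro e₂ he₂
    rcases Nat.eq_zero_or_pos g with hg | hg
    · left
      have h7 := hdim i0 hi0
      rw [hg] at h7
      simpa using h7
    · right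
      exact hother hg e₂ he₂ i0 hi0
  have hsq : ∀ (m : ℕ) (N' : Fin m → ℝ), (∀ i, 1 < N' i ∧ ∃ Q' : RO Eis, ClassV (N' i) Q') →
      ∀ i, Real.sqrt 3 ≤ N' i := by
    intro m N' h i
    obtain ⟨hi1, Q', hQ'⟩ := h i
    rcases hNVE _ _ hQ' with h | h
    · linarith
    · exact h
  -- a closing at a load of a pair with an outcome of type `ToP`
  have hpair : ∀ e : (RO Eis)ˣ, ToP (θ - 1 / 2) (D.coeff 0) (D.coeff S) e →
      (PwI (D.coeff 0) (D.coeff S) e → 1 / θ ≤ ‖mn ((e : RO Eis) * D.coeff S) (D.coeff 0)‖) →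
      (∀ N : ℝ, ClassV N (D.coeff 0 + (e : RO Eis) * D.coeff S) →
        ∀ B : ℝ → ℝ, Monotone B → (∀ x, 1 ≤ B x) → (∀ x, x ≤ N → BdV Eis x (B x)) →
          (Module.finrank ℤ L : ℝ) ≤ 1 + B N ∨
          (PwI (D.coeff 0) (D.coeff S) e ∧ (Module.finrank ℤ L : ℝ) ≤ 2 + B N) ∨
          ∃ (m : ℕ) (N' : Fin m → ℝ) (N₀ : ℝ) (l : ℕ),
            (∀ i, 1 < N' i ∧ ∃ Q' : RO Eis, ClassV (N' i) Q') ∧ (∃ Q' : RO Eis, ClassV N₀ Q') ∧
            N₀ * ∏ i, N' i = N ∧ (m = 1 → N₀ = 1 → 2 * N ^ 2 ≤ M (D.coeff 0) ^ 2) ∧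
            (l : ℝ) * ∏ i, N' i ≤ 2 * M (D.coeff 0) ∧
            (Module.finrank ℤ L : ℝ) ≤ 2 + l + ∑ i, B (N' i)) →
      (∀ θ' : ℝ, ClassP θ' (D.coeff 0 + (e : RO Eis) * D.coeff S) → ∀ C : ℝ, 1 ≤ C →
        BdP Eis θ' C →
          (Module.finrank ℤ L : ℝ) ≤ 1 + C ∨
          (PwI (D.coeff 0) (D.coeff S) e ∧ (Module.finrank ℤ L : ℝ) ≤ 2 + C) ∨
          ∃ l : ℕ, ((l : ℝ) ≤ 2 * M (D.coeff 0) ∧ (Module.finrank ℤ L : ℝ) ≤ 2 + l) ∨
            (2 * θ' ^ 2 ≤ M (D.coeff 0) ^ 2 ∧ (l : ℝ) * θ' ≤ 2 * M (D.coeff 0) ∧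
              (Module.finrank ℤ L : ℝ) ≤ 2 + l + C)) →
      (Module.finrank ℤ L : ℝ) ≤ 2 * θ + 480000 := by
    intro e hT hmean hcV hcP
    have hpos : (0 : ℝ) ≤ θ := hθpos.le
    rcases hT with hV | ⟨θ', hθ', hV⟩
    · have hb1 := bV3_le (le_refl (1 : ℝ))
      rcases hcV 1 hV bV3 bV3_mono one_le_bV3 (fun x _ => hBV x) with
        h | ⟨-, h⟩ | ⟨m, N'', N₀, l, h1, ⟨Q₀, hQ₀⟩, h2, -, h5, h6⟩
      · linarith
      · linarith
      · have hN₀1 : 1 ≤ N₀ := hQ₀.1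
        have hp0 : 0 ≤ ∏ i, N'' i :=
          Finset.prod_nonneg fun i _ => le_trans zero_le_one (h1 i).1.le
        have hm : m = 0 := jp2_empty m N'' (fun i => (h1 i).1) (by rw [← h2]; nlinarith)
        subst hm
        simp only [Finset.univ_eq_empty, Finset.prod_empty, mul_one, Finset.sum_empty,
          add_zero] at h5 h6
        rw [hMQ] at h5
        linarith
    · have h1 : 1 < θ' := hV.1
      have hb := bP3_le θ'
      rcases hcP θ' hV (bP3 θ') (one_le_bP3 h1) (hBP θ' (by linarith)) with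
        h | ⟨hpw, h⟩ | ⟨l, h | h⟩
      · linarith
      · have h5 := hPUN Eis ((e : RO Eis) * D.coeff S) (D.coeff 0) hz (hneP _ _ hV) (by
          intro z
          have h6 : ‖evR z ((e : RO Eis) * D.coeff S)‖ = ‖evR z (D.coeff S)‖ := by
            rw [map_mul, norm_mul, (hEvR Eis).2.1 z _ e.isUnit, one_mul]
          rw [h6]
          exact hpw z)
        rw [((hMV Eis).2 θ' _ hV).2, hMQ] at h5
        have h7 : θ * (1 - ‖mn ((e : RO Eis) * D.coeff S) (D.coeff 0)‖) ≤ θ * (1 - 1 / θ) :=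
          mul_le_mul_of_nonneg_left (by linarith [hmean hpw]) hθpos.le
        have h8 : θ * (1 - 1 / θ) = θ - 1 := by
          field_simp
        linarith
      · rw [hMQ] at h
        linarith [h.1, h.2]
      · rw [hMQ] at h
        have := (hNP3 θ θ' l hθ h1 h.2.1).1 h.1
        linarith [h.2.2]
  rcases heta S hRS with ⟨e₂, hadj, hr1, hr2, ht1, ht2⟩ | ⟨e₂, hcr, ⟨N₁, hN₁, hVN⟩, ht2, hmean⟩ |
    ⟨hMF, ht⟩ | hsg
  · -- two loads of type B
    have hmn : ∀ e : (RO Eis)ˣ, (e = eta S ∨ e = e₂) →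
        1 / θ ≤ ‖mn ((e : RO Eis) * D.coeff S) (D.coeff 0)‖ := by
      intro e he
      rcases he with rfl | rfl
      · exact hr1
      · rw [← (hADJ Eis (eta S) e hadj).2.2]
        exact hr1
    obtain ⟨e, he, hcV, hcP⟩ := hCLX Eis P L phi D S i0 (eta S) e₂ hi0 hD hthree hRS
      (hne S hRS) (hneT _ _ _ ht2) (Or.inl ⟨hadj, hr2⟩)
      (hfull e₂ (fun h => adj_ne hadj h.symm))
    refine hpair e ?_ (fun _ => hmn e he) hcV hcP
    rcases he with rfl | rfl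
    · exact ht1
    · exact ht2
  · -- window
    obtain ⟨e, he, hcV, hcP⟩ := hCLX Eis P L phi D S i0 (eta S) e₂ hi0 hD hthree hRS
      (hne S hRS) (hneT _ _ _ ht2) (Or.inr hcr) (hfull e₂ (cross_ne hcr))
    rcases he with rfl | rfl
    · have hN1 : 1 ≤ N₁ := hVN.1
      have hb := bV3_le hN1
      rcases hcV N₁ hVN bV3 bV3_mono one_le_bV3 (fun x _ => hBV x) with
        h | ⟨-, h⟩ | ⟨m, N'', N₀, l, h1, ⟨Q₀, hQ₀⟩, h2, -, h5, h6⟩
      · linarith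
      · linarith
      · have hN₀1 : 1 ≤ N₀ := hQ₀.1
        have hp0 : 0 ≤ ∏ i, N'' i :=
          Finset.prod_nonneg fun i _ => le_trans zero_le_one (h1 i).1.le
        have hple : ∏ i, N'' i ≤ N₁ := by
          rw [← h2]
          nlinarith
        rw [hMQ] at h5
        have := hq2 θ m N'' l hθ (hsq m N'' h1) (le_trans hple hN₁) h5
        linarith
    · exact hpair e ht2 hmean hcV hcP
  · -- heavy
    have hg : (g : ℝ) ≤ 11 := by
      rw [hMQ] at hM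
      have h8 : (g : ℝ) < 12 := by
        by_contra hcon
        push Not at hcon
        nlinarith
      have h9 : g < 12 := by exact_mod_cast h8
      have h10 : g ≤ 11 := by omega
      exact_mod_cast h10
    obtain ⟨c1, c2⟩ := hCL4 Eis P L phi D S i0 (eta S) hi0 hcc
    rcases ht with hV | ⟨θ', hθ', hV⟩
    · obtain ⟨m, N'', l, h1, h2, h3, h4⟩ := c1 1 hV bV3 bV3_mono one_le_bV3 (fun x _ => hBV x)
      have hm : m = 0 := jp2_empty m N'' (fun i => (h1 i).1) h2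
      subst hm
      simp only [Finset.univ_eq_empty, Finset.prod_empty, mul_one, Finset.sum_empty,
        add_zero] at h3 h4
      rw [hMQ] at h3
      linarith
    · have h1 : 1 < θ' := hV.1
      obtain ⟨l, h | h⟩ := c2 θ' hV (bP3 θ') (one_le_bP3 h1) (hBP θ' (by linarith))
      · rw [hMQ] at h
        linarith [h.1, h.2]
      · rw [hMQ] at h
        have := (hNP3 θ θ' l hθ h1 (by linarith [h.1])).2.1 hθ'
        linarith [h.2]
  · -- single loads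
    obtain ⟨c1, c2⟩ := hCL4 Eis P L phi D S i0 (eta S) hi0 hcc
    rcases hsg with (hV | ⟨θ', hθ', hV⟩) | ⟨N₁, hN₁, hV⟩
    · obtain ⟨m, N'', l, h1, h2, h3, h4⟩ := c1 1 hV bV3 bV3_mono one_le_bV3 (fun x _ => hBV x)
      have hm : m = 0 := jp2_empty m N'' (fun i => (h1 i).1) h2
      subst hm
      simp only [Finset.univ_eq_empty, Finset.prod_empty, mul_one, Finset.sum_empty,
        add_zero] at h3 h4
      rw [hMQ] at h3
      rw [((hMV Eis).1 1 _ hV).2] at hgs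
      have := hq1 θ 1 l g hθ le_rfl h3 hgs
      linarith
    · have h1 : 1 < θ' := hV.1
      rw [((hMV Eis).2 θ' _ hV).2] at hgs
      obtain ⟨l, h | h⟩ := c2 θ' hV (bP3 θ') (one_le_bP3 h1) (hBP θ' (by linarith))
      · rw [hMQ] at h
        have := hq1 θ θ' l g hθ h1.le h.1 hgs
        linarith [h.2]
      · rw [hMQ] at h
        have := (hNP3 θ θ' l hθ h1 (by linarith [h.1])).2.2 g hθ' hgs
        linarith [h.2]
    · obtain ⟨m, N'', l, h1, h2, h3, h4⟩ := c1 N₁ hV bV3 bV3_mono one_le_bV3 (fun x _ => hBV x)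
      rw [hMQ] at h3
      rw [((hMV Eis).1 N₁ _ hV).2] at hgs
      have := hq3 θ N₁ m N'' l g hθ hV.1 hN₁ (hsq m N'' h1) h2 h3 hgs
      linarith

end Pool.Agent.B5.H36
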