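import Pool.Agent.Lib.MP_b5021c_nt.IfaceG

/-!
# MP_b5021c_nt, board b5, row H1C: two different pure rays
-/

namespace Pool.Agent.B5.H36

open scoped LaurentPolynomial
open Pool.Agent.B5

section

variable {O : Type} [CommRing O] {L : Type} [AddCommGroup L]

example (k : L →+ ℤ) [Module.Free ℤ L] [Module.Finite ℤ L] : Module.Free ℤ (Ker k) := inferInstance
example (k : L →+ ℤ) [Module.Free ℤ L] [Module.Finite ℤ L] : Module.Finite ℤ (Ker k) := inferInstance

theorem eq_sum_single (D : AO O L) : D = ∑ a ∈ D.coeff.support, AddMonoidAlgebra.single a (D.coeff a) := by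
  conv_lhs => rw [← AddMonoidAlgebra.sum_coeff_single D]
  rfl

/-- The coefficients of the closed element. -/
theorem clc (k : L →+ ℤ) (S : L) (h : k S = 1) (eta : (RO O)ˣ) (D : AO O L)
    (hD : ∀ a ∈ supp D, k a = 0 ∨ k a = 1) (b : Ker k) :
    (cl k S h eta D).coeff b = D.coeff (b : L) + (eta : RO O) * D.coeff ((b : L) + S) := by
  classical
  conv_lhs => rw [eq_sum_single D, map_sum]
  rw [AddMonoidAlgebra.coeff_sum, Finsupp.finsetSum_apply]
  have key : ∀ a ∈ D.coeff.support,
      (cl k S h eta (AddMonoidAlgebra.single a (D.coeff a))).coeff b =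
        (if a = (b : L) then D.coeff a else 0) +
          (if a = (b : L) + S then (eta : RO O) * D.coeff a else 0) := by
    intro a ha
    rw [cl_single, AddMonoidAlgebra.coeff_single, Finsupp.single_apply]
    have hb : k (b : L) = 0 := b.2
    have hS : S ≠ 0 := by rintro rfl; simp at h
    rcases hD a (by simpa [supp] using ha) with h0 | h1
    · have e1 : prj k S h a = b ↔ a = (b : L) := by
        rw [← Subtype.coe_inj, prj_coe, h0, zero_smul, sub_zero]
      have e2 : ¬ a = (b : L) + S := by
        rintro rfl
        rw [map_add, hb, h] at h0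
        norm_num at h0
      rw [if_neg e2, h0]
      simp only [e1]
      simp
    · have e1 : prj k S h a = b ↔ a = (b : L) + S := by
        rw [← Subtype.coe_inj, prj_coe, h1, one_smul, sub_eq_iff_eq_add]
      have e2 : ¬ a = (b : L) := by
        rintro rfl
        rw [hb] at h1
        norm_num at h1
      rw [if_neg e2, h1]
      simp only [e1]
      simp [mul_comm]
  rw [Finset.sum_congr rfl key, Finset.sum_add_distrib, Finset.sum_ite_eq', Finset.sum_ite_eq']
  congr 1
  · split_ifs with h1
    · rfl
    · exact (Finsupp.notMem_support_iff.1 h1).symm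
  · split_ifs with h1
    · rfl
    · rw [Finsupp.notMem_support_iff.1 h1, mul_zero]

end

end Pool.Agent.B5.H36
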